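import Mathlib

set_option autoImplicit false

namespace Pool.Agent.Results.MP_1ac54c_co.GappedWilf

/-- `π ∈ S_n` (a permutation of `Fin n`) contains the distant pattern obtained from the word
`q = q 0 q 1 q 2 q 3` by placing a square between `q j` and `q (j+1)`: there are positions
`i 0 < i 1 < i 2 < i 3` at which the entries of `π` are in the same relative order as `q`, and
`i (j+1) - i j ≥ 2`. -/
def Contains {n : ℕ} (q : Fin 4 → ℕ) (j : Fin 3) (π : Equiv.Perm (Fin n)) : Prop :=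
  ∃ i : Fin 4 → Fin n, StrictMono i ∧ (∀ a b : Fin 4, π (i a) < π (i b) ↔ q a < q b) ∧
    (i j.castSucc : ℕ) + 2 ≤ (i j.succ : ℕ)

/-- The number of permutations in `S_n` which avoid the distant pattern `(q, j)`. -/
noncomputable def avoidCount (q : Fin 4 → ℕ) (j : Fin 3) (n : ℕ) : ℕ :=
  Nat.card {π : Equiv.Perm (Fin n) // ¬ Contains q j π}

section Region

variable {n : ℕ}

/-- The cell `(p, v)` has a copy of the structure `Q` to its upper right (the first position being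
at distance at least `g` from `p`). -/
def Reg (Q : Fin n → Fin n → Fin n → Fin n → Prop) (g : ℕ) (π : Equiv.Perm (Fin n))
    (p v : Fin n) : Prop :=
  ∃ x y : Fin n, x < y ∧ Q x y (π x) (π y) ∧ (p : ℕ) + g ≤ (x : ℕ) ∧ v < π x ∧ v < π y

variable {Q : Fin n → Fin n → Fin n → Fin n → Prop} {g : ℕ}

lemma Reg.mono {π : Equiv.Perm (Fin n)} {p v p' v' : Fin n} (h : Reg Q g π p v)
    (hp : p' ≤ p) (hv : v' ≤ v) : Reg Q g π p' v' := by
  obtain ⟨x, y, hxy, hQ, hpx, h1, h2⟩ := h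
  have hp' : (p' : ℕ) ≤ p := hp
  exact ⟨x, y, hxy, hQ, by omega, lt_of_le_of_lt hv h1, lt_of_le_of_lt hv h2⟩

lemma Reg.outside (hg : 1 ≤ g) {π : Equiv.Perm (Fin n)} :
    ∀ (m : ℕ) (p v : Fin n), n - (p : ℕ) ≤ m → Reg Q g π p v →
      ∃ x y : Fin n, x < y ∧ Q x y (π x) (π y) ∧ (p : ℕ) + g ≤ (x : ℕ) ∧ v < π x ∧ v < π y ∧
        ¬ Reg Q g π x (π x) ∧ ¬ Reg Q g π y (π y) := by
  intro m
  induction m with
  | zero =>
    intro p v hm h
    have := p.2
    omega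
  | succ m ih =>
    intro p v hm h
    obtain ⟨x, y, hxy, hQ, hpx, h1, h2⟩ := h
    have hxy' : (x : ℕ) < y := hxy
    by_cases hx : Reg Q g π x (π x)
    · obtain ⟨x', y', a1, a2, a3, a4, a5, a6, a7⟩ := ih x (π x) (by have := x.2; omega) hx
      exact ⟨x', y', a1, a2, by omega, lt_trans h1 a4, lt_trans h1 a5, a6, a7⟩
    · by_cases hy : Reg Q g π y (π y)
      · obtain ⟨x', y', a1, a2, a3, a4, a5, a6, a7⟩ := ih y (π y) (by have := y.2; omega) hy
        exact ⟨x', y', a1, a2, by omega, lt_trans h2 a4, lt_trans h2 a5, a6, a7⟩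
      · exact ⟨x, y, hxy, hQ, hpx, h1, h2, hx, hy⟩

lemma reg_iff_of (hg : 1 ≤ g) {π ρ : Equiv.Perm (Fin n)}
    (h1 : ∀ p, ¬ Reg Q g π p (π p) → ρ p = π p)
    (h2 : ∀ p, Reg Q g π p (π p) → Reg Q g π p (ρ p)) (p v : Fin n) :
    Reg Q g π p v ↔ Reg Q g ρ p v := by
  constructor
  · intro h
    obtain ⟨x, y, a1, a2, a3, a4, a5, a6, a7⟩ := Reg.outside hg _ p v le_rfl h
    refine ⟨x, y, a1, ?_, a3, ?_, ?_⟩
    · rw [h1 x a6, h1 y a7]; exact a2
    · rw [h1 x a6]; exact a4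
    · rw [h1 y a7]; exact a5
  · rintro ⟨x, y, hxy, hQ, hpx, b1, b2⟩
    have hxy' : (x : ℕ) < y := hxy
    by_cases hx : Reg Q g π x (π x)
    · exact (h2 x hx).mono (Fin.le_def.mpr (by omega)) b1.le
    · by_cases hy : Reg Q g π y (π y)
      · exact (h2 y hy).mono (Fin.le_def.mpr (by omega)) b2.le
      · rw [h1 x hx] at b1 hQ
        rw [h1 y hy] at b2 hQ
        exact ⟨x, y, hxy, hQ, hpx, b1, b2⟩

/-- Two permutations are related when they have the same region and the same entries outside it. -/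
def Rel (Q : Fin n → Fin n → Fin n → Fin n → Prop) (g : ℕ) (π ρ : Equiv.Perm (Fin n)) : Prop :=
  (∀ p v, Reg Q g π p v ↔ Reg Q g ρ p v) ∧
    ∀ p, (¬ Reg Q g π p (π p) ∨ ¬ Reg Q g ρ p (ρ p)) → π p = ρ p

lemma Rel.refl (π : Equiv.Perm (Fin n)) : Rel Q g π π := ⟨fun _ _ => Iff.rfl, fun _ _ => rfl⟩

lemma Rel.symm {π ρ : Equiv.Perm (Fin n)} (h : Rel Q g π ρ) : Rel Q g ρ π :=
  ⟨fun p v => (h.1 p v).symm, fun p hp => (h.2 p hp.symm).symm⟩

lemma Rel.trans {π ρ σ : Equiv.Perm (Fin n)} (h : Rel Q g π ρ) (h' : Rel Q g ρ σ) :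
    Rel Q g π σ := by
  refine ⟨fun p v => (h.1 p v).trans (h'.1 p v), fun p hp => ?_⟩
  rcases hp with hp | hp
  · have e1 := h.2 p (Or.inl hp)
    have : ¬ Reg Q g ρ p (ρ p) := by rw [← h.1, ← e1]; exact hp
    rw [e1, h'.2 p (Or.inl this)]
  · have e1 := h'.2 p (Or.inr hp)
    have : ¬ Reg Q g ρ p (ρ p) := by rw [h'.1, e1]; exact hp
    rw [← e1, h.2 p (Or.inr this)]

lemma Rel.reg_self {π ρ : Equiv.Perm (Fin n)} (h : Rel Q g π ρ) {p : Fin n}
    (hp : Reg Q g π p (π p)) : Reg Q g ρ p (ρ p) := by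
  by_contra hc
  have e := h.2 p (Or.inr hc)
  exact hc ((h.1 _ _).mp (e ▸ hp))

lemma rel_swap (hg : 1 ≤ g) {π : Equiv.Perm (Fin n)} {i j : Fin n} (hij : i < j)
    (h1 : Reg Q g π j (π i)) (h2 : Reg Q g π j (π j)) : Rel Q g π (π * Equiv.swap i j) := by
  have hne : i ≠ j := hij.ne
  have ei : (π * Equiv.swap i j) i = π j := by simp
  have ej : (π * Equiv.swap i j) j = π i := by simp
  have eo : ∀ p, p ≠ i → p ≠ j → (π * Equiv.swap i j) p = π p := by
    intro p hpi hpj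
    simp [Equiv.swap_apply_of_ne_of_ne hpi hpj]
  have key : ∀ p, Reg Q g π p (π p) → Reg Q g π p ((π * Equiv.swap i j) p) := by
    intro p hp
    by_cases hpi : p = i
    · subst hpi; rw [ei]; exact h2.mono hij.le le_rfl
    · by_cases hpj : p = j
      · subst hpj; rw [ej]; exact h1
      · rw [eo p hpi hpj]; exact hp
  have key2 : ∀ p, ¬ Reg Q g π p (π p) → (π * Equiv.swap i j) p = π p := by
    intro p hp
    apply eo
    · rintro rfl; exact hp (h1.mono hij.le le_rfl)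
    · rintro rfl; exact hp h2
  have hreg := reg_iff_of hg key2 key
  refine ⟨hreg, fun p hp => ?_⟩
  rcases hp with hp | hp
  · exact (key2 p hp).symm
  · symm
    apply eo
    · rintro rfl
      apply hp; rw [← hreg, ei]; exact h2.mono hij.le le_rfl
    · rintro rfl
      apply hp; rw [← hreg, ej]; exact h1

/-- A statistic which increases when an inversion is undone. -/
def stat (π : Equiv.Perm (Fin n)) : ℤ := ∑ p : Fin n, ((p : ℕ) : ℤ) * ((π p : ℕ) : ℤ)

lemma stat_swap (π : Equiv.Perm (Fin n)) {i j : Fin n} (hij : i < j) :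
    stat (π * Equiv.swap i j) - stat π =
      (((j : ℕ) : ℤ) - ((i : ℕ) : ℤ)) * (((π i : ℕ) : ℤ) - ((π j : ℕ) : ℤ)) := by
  unfold stat
  rw [← Finset.sum_sub_distrib, Finset.sum_eq_add i j hij.ne]
  · simp only [Equiv.Perm.coe_mul, Function.comp_apply, Equiv.swap_apply_left,
      Equiv.swap_apply_right]
    ring
  · intro c _ hc
    simp [Equiv.swap_apply_of_ne_of_ne hc.1 hc.2]
  · intro h; exact absurd (Finset.mem_univ _) h
  · intro h; exact absurd (Finset.mem_univ _) h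

lemma stat_swap_gt (π : Equiv.Perm (Fin n)) {i j : Fin n} (hij : i < j) (h : π j < π i) :
    stat π < stat (π * Equiv.swap i j) := by
  have h0 := stat_swap π hij
  have h1 : (0 : ℤ) < ((j : ℕ) : ℤ) - ((i : ℕ) : ℤ) := by
    have : (i : ℕ) < j := hij
    omega
  have h2 : (0 : ℤ) < ((π i : ℕ) : ℤ) - ((π j : ℕ) : ℤ) := by
    have : (π j : ℕ) < π i := h
    omega
  have := mul_pos h1 h2
  linarith

lemma stat_swap_lt (π : Equiv.Perm (Fin n)) {i j : Fin n} (hij : i < j) (h : π i < π j) :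
    stat (π * Equiv.swap i j) < stat π := by
  have h0 := stat_swap π hij
  have h1 : (0 : ℤ) < ((j : ℕ) : ℤ) - ((i : ℕ) : ℤ) := by
    have : (i : ℕ) < j := hij
    omega
  have h2 : (0 : ℤ) < ((π j : ℕ) : ℤ) - ((π i : ℕ) : ℤ) := by
    have : (π i : ℕ) < π j := h
    omega
  have := mul_pos h1 h2
  nlinarith

lemma exists_avoid12 (hg : 1 ≤ g) (π : Equiv.Perm (Fin n)) :
    ∃ ρ, Rel Q g π ρ ∧ ∀ i j : Fin n, i < j → ρ i < ρ j → ¬ Reg Q g ρ j (ρ j) := by
  obtain ⟨ρ, hρ, hmin⟩ := Set.exists_min_image {ρ | Rel Q g π ρ} stat (Set.toFinite _)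
    ⟨π, Rel.refl π⟩
  refine ⟨ρ, hρ, fun i j hij hlt hreg => ?_⟩
  have h1 : Rel Q g π (ρ * Equiv.swap i j) :=
    hρ.trans (rel_swap hg hij (hreg.mono le_rfl hlt.le) hreg)
  have h2 := hmin _ h1
  have h3 := stat_swap_lt ρ hij hlt
  linarith

lemma exists_avoid21 (hg : 1 ≤ g) (π : Equiv.Perm (Fin n)) :
    ∃ ρ, Rel Q g π ρ ∧ ∀ i j : Fin n, i < j → ρ j < ρ i → ¬ Reg Q g ρ j (ρ i) := by
  obtain ⟨ρ, hρ, hmax⟩ := Set.exists_max_image {ρ | Rel Q g π ρ} stat (Set.toFinite _)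
    ⟨π, Rel.refl π⟩
  refine ⟨ρ, hρ, fun i j hij hlt hreg => ?_⟩
  have h1 : Rel Q g π (ρ * Equiv.swap i j) :=
    hρ.trans (rel_swap hg hij hreg (hreg.mono le_rfl hlt.le))
  have h2 := hmax _ h1
  have h3 := stat_swap_gt ρ hij hlt
  linarith

/-- the last place where two different permutations disagree -/
lemma exists_last_ne {π ρ : Equiv.Perm (Fin n)} (h : π ≠ ρ) :
    ∃ j, π j ≠ ρ j ∧ ∀ k, j < k → π k = ρ k := by
  have hne : {j | π j ≠ ρ j}.Nonempty := by
    by_contra hc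
    rw [Set.not_nonempty_iff_eq_empty] at hc
    apply h
    ext j
    by_contra hj
    have : j ∈ {j | π j ≠ ρ j} := by
      intro h'; exact hj (by rw [h'])
    rw [hc] at this
    exact this
  obtain ⟨j, hj, hmax⟩ := Set.exists_max_image {j | π j ≠ ρ j} id (Set.toFinite _) hne
  refine ⟨j, hj, fun k hk => ?_⟩
  by_contra hc
  exact absurd (hmax k hc) (not_le.mpr hk)

lemma unique12_aux {π ρ : Equiv.Perm (Fin n)} (h : Rel Q g π ρ)
    (hρ : ∀ i j : Fin n, i < j → ρ i < ρ j → ¬ Reg Q g ρ j (ρ j))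
    {j : Fin n} (hj : π j < ρ j) (hagree : ∀ k, j < k → π k = ρ k) : False := by
  have hreg : Reg Q g ρ j (ρ j) := by
    by_contra hc
    exact hj.ne (h.2 j (Or.inr hc))
  obtain ⟨i, hi⟩ := ρ.surjective (π j)
  have hij : i < j := by
    rcases lt_trichotomy i j with h1 | h1 | h1
    · exact h1
    · subst h1; exact absurd hi.symm hj.ne
    · have := hagree i h1
      rw [hi] at this
      exact absurd (π.injective this) h1.ne'
  exact hρ i j hij (by rw [hi]; exact hj) hreg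

lemma unique12 {π ρ : Equiv.Perm (Fin n)} (h : Rel Q g π ρ)
    (hπ : ∀ i j : Fin n, i < j → π i < π j → ¬ Reg Q g π j (π j))
    (hρ : ∀ i j : Fin n, i < j → ρ i < ρ j → ¬ Reg Q g ρ j (ρ j)) : π = ρ := by
  by_contra hne
  obtain ⟨j, hj, hagree⟩ := exists_last_ne hne
  rcases lt_or_gt_of_ne hj with h1 | h1
  · exact unique12_aux h hρ h1 hagree
  · exact unique12_aux h.symm hπ h1 (fun k hk => (hagree k hk).symm)

lemma unique21_aux {π ρ : Equiv.Perm (Fin n)} (h : Rel Q g π ρ)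
    (hπ : ∀ i j : Fin n, i < j → π j < π i → ¬ Reg Q g π j (π i))
    {j : Fin n} (hj : π j < ρ j) (hagree : ∀ k, j < k → π k = ρ k) : False := by
  have hreg : Reg Q g π j (ρ j) := by
    rw [h.1]
    by_contra hc
    exact hj.ne (h.2 j (Or.inr hc))
  obtain ⟨i, hi⟩ := π.surjective (ρ j)
  have hij : i < j := by
    rcases lt_trichotomy i j with h1 | h1 | h1
    · exact h1
    · subst h1; exact absurd hi hj.ne
    · have := hagree i h1
      rw [hi] at this
      exact absurd (ρ.injective this) h1.ne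
  exact hπ i j hij (by rw [hi]; exact hj) (by rw [hi]; exact hreg)

lemma unique21 {π ρ : Equiv.Perm (Fin n)} (h : Rel Q g π ρ)
    (hπ : ∀ i j : Fin n, i < j → π j < π i → ¬ Reg Q g π j (π i))
    (hρ : ∀ i j : Fin n, i < j → ρ j < ρ i → ¬ Reg Q g ρ j (ρ i)) : π = ρ := by
  by_contra hne
  obtain ⟨j, hj, hagree⟩ := exists_last_ne hne
  rcases lt_or_gt_of_ne hj with h1 | h1
  · exact unique21_aux h hπ h1 hagree
  · exact unique21_aux h.symm hρ h1 (fun k hk => (hagree k hk).symm)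

/-- A general counting principle. -/
lemma card_le_of_rel {α : Type*} [Finite α] {A B : α → Prop} {R : α → α → Prop}
    (hex : ∀ a, A a → ∃ b, B b ∧ R a b)
    (hun : ∀ a a' b, A a → A a' → R a b → R a' b → a = a') :
    Nat.card {a // A a} ≤ Nat.card {b // B b} := by
  choose f hf using hex
  refine Nat.card_le_card_of_injective (fun a : {a // A a} => (⟨f a.1 a.2, (hf a.1 a.2).1⟩ : {b // B b})) ?_
  intro a a' haa
  have haa' : f a.1 a.2 = f a'.1 a'.2 := congrArg Subtype.val haa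
  apply Subtype.ext
  apply hun a.1 a'.1 (f a.1 a.2) a.2 a'.2 (hf a.1 a.2).2
  rw [haa']
  exact (hf a'.1 a'.2).2

/-- Exchange of `12` and `21` at the lower left of an arbitrary structure. -/
theorem card_exchange (hg : 1 ≤ g) :
    Nat.card {π : Equiv.Perm (Fin n) // ∀ i j : Fin n, i < j → π i < π j → ¬ Reg Q g π j (π j)} =
    Nat.card {π : Equiv.Perm (Fin n) // ∀ i j : Fin n, i < j → π j < π i → ¬ Reg Q g π j (π i)} := by
  apply le_antisymm
  · refine card_le_of_rel (R := Rel Q g) (fun a _ => ?_) (fun a a' b ha ha' h1 h2 => ?_)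
    · obtain ⟨ρ, h1, h2⟩ := exists_avoid21 (Q := Q) hg a
      exact ⟨ρ, h2, h1⟩
    · exact unique12 (h1.trans h2.symm) ha ha'
  · refine card_le_of_rel (R := Rel Q g) (fun a _ => ?_) (fun a a' b ha ha' h1 h2 => ?_)
    · obtain ⟨ρ, h1, h2⟩ := exists_avoid12 (Q := Q) hg a
      exact ⟨ρ, h2, h1⟩
    · exact unique21 (h1.trans h2.symm) ha ha'


/-! ### The exchange of `1 □ 2` and `2 □ 1` -/

/-- For a region with `g = 1`: an inversion at adjacent positions of the region has its corner in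
the region. -/
lemma corner_of_adjacent {ρ : Equiv.Perm (Fin n)} {i j : Fin n} (hij : (i : ℕ) + 1 = j)
    (hlt : ρ j < ρ i) (h : Reg Q 1 ρ i (ρ i)) : Reg Q 1 ρ j (ρ i) := by
  obtain ⟨x, y, hxy, hQ, hpx, h1, h2⟩ := h
  refine ⟨x, y, hxy, hQ, ?_, h1, h2⟩
  have hne : x ≠ j := by
    rintro rfl
    exact absurd (lt_trans h1 hlt) (lt_irrefl _)
  have hne' : (x : ℕ) ≠ j := fun h => hne (Fin.ext h)
  omega

/-- More generally the corner moves one step if the corner value is above the entry. -/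
lemma corner_step {ρ : Equiv.Perm (Fin n)} {j k v : Fin n} (hjk : (j : ℕ) + 1 = k)
    (hlt : ρ k < v) (h : Reg Q 1 ρ j v) : Reg Q 1 ρ k v := by
  obtain ⟨x, y, hxy, hQ, hpx, h1, h2⟩ := h
  refine ⟨x, y, hxy, hQ, ?_, h1, h2⟩
  have hne : x ≠ k := by
    rintro rfl
    exact absurd (lt_trans h1 hlt) (lt_irrefl _)
  have hne' : (x : ℕ) ≠ k := fun h => hne (Fin.ext h)
  omega

/-- A valid set of adjacent pairs for the class of `π`. -/
structure Valid (Q : Fin n → Fin n → Fin n → Fin n → Prop) (π : Equiv.Perm (Fin n))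
    (T : Fin n → Fin n → Prop) : Prop where
  adj : ∀ i j, T i j → (i : ℕ) + 1 = j
  left : ∀ i j, T i j → Reg Q 1 π i (π i)
  right : ∀ i j, T i j → Reg Q 1 π j (π j)
  disj : ∀ i j k, T i j → T j k → False

lemma exists_B {π : Equiv.Perm (Fin n)} {T : Fin n → Fin n → Prop} (hT : Valid Q π T) :
    ∃ ρ, Rel Q 1 π ρ ∧ (∀ i j, T i j → ρ j < ρ i) ∧
      ∀ i j : Fin n, i < j → ρ j < ρ i → Reg Q 1 ρ j (ρ i) → T i j := by
  have hne : {ρ | Rel Q 1 π ρ ∧ ∀ i j, T i j → ρ j < ρ i}.Nonempty := by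
    obtain ⟨ρ, h1, h2⟩ := exists_avoid12 (Q := Q) le_rfl π
    refine ⟨ρ, h1, fun i j hij => ?_⟩
    have hadj := hT.adj i j hij
    have hlt : i < j := Fin.lt_def.mpr (by omega)
    rcases lt_trichotomy (ρ i) (ρ j) with h | h | h
    · exact absurd (h1.reg_self (hT.right i j hij)) (h2 i j hlt h)
    · exact absurd (ρ.injective h) hlt.ne
    · exact h
  obtain ⟨ρ, ⟨hρ, hTρ⟩, hmax⟩ := Set.exists_max_image _ stat (Set.toFinite _) hne
  refine ⟨ρ, hρ, hTρ, ?_⟩
  by_contra hcon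
  have hbad : {p : Fin n × Fin n | p.1 < p.2 ∧ ρ p.2 < ρ p.1 ∧ Reg Q 1 ρ p.2 (ρ p.1) ∧
      ¬ T p.1 p.2}.Nonempty := by
    push Not at hcon
    obtain ⟨i, j, h1, h2, h3, h4⟩ := hcon
    exact ⟨(i, j), h1, h2, h3, h4⟩
  obtain ⟨⟨i, j⟩, ⟨hij, hlt, hreg, hnT⟩, hmin⟩ :=
    Set.exists_min_image _ (fun p : Fin n × Fin n => (ρ p.1 : ℕ) - (ρ p.2 : ℕ))
      (Set.toFinite _) hbad
  simp only at hij hlt hreg hnT hmin
  have hmin' : ∀ a b : Fin n, a < b → ρ b < ρ a → Reg Q 1 ρ b (ρ a) → ¬ T a b →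
      (ρ i : ℕ) - (ρ j : ℕ) ≤ (ρ a : ℕ) - (ρ b : ℕ) := fun a b h1 h2 h3 h4 =>
    hmin (a, b) ⟨h1, h2, h3, h4⟩
  have ei : (ρ * Equiv.swap i j) i = ρ j := by simp
  have ej : (ρ * Equiv.swap i j) j = ρ i := by simp
  have eo : ∀ p, p ≠ i → p ≠ j → (ρ * Equiv.swap i j) p = ρ p := by
    intro p hpi hpj
    simp [Equiv.swap_apply_of_ne_of_ne hpi hpj]
  have hrel : Rel Q 1 π (ρ * Equiv.swap i j) :=
    hρ.trans (rel_swap le_rfl hij hreg (hreg.mono le_rfl hlt.le))
  have hmem : (ρ * Equiv.swap i j) ∈ {ρ | Rel Q 1 π ρ ∧ ∀ i j, T i j → ρ j < ρ i} := by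
    refine ⟨hrel, fun a b hab => ?_⟩
    have hadj := hT.adj a b hab
    have hcab := hTρ a b hab
    have hij' : (i : ℕ) < j := hij
    have hlt' : (ρ j : ℕ) < ρ i := hlt
    have hcab' : (ρ b : ℕ) < ρ a := hcab
    by_cases hai : a = i
    · subst hai
      have hbj : b ≠ j := by rintro rfl; exact hnT hab
      have hbi : b ≠ a := by rintro rfl; omega
      rw [ei, eo b hbi hbj]
      by_contra hc
      have hc' : ρ j < ρ b := lt_of_le_of_ne (not_lt.mp hc) (fun h => hbj (ρ.injective h).symm)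
      have hc'' : (ρ j : ℕ) < ρ b := hc'
      have hbj' : (b : ℕ) ≠ j := fun h => hbj (Fin.ext h)
      have := hmin' b j (Fin.lt_def.mpr (by omega)) hc' (hreg.mono le_rfl hcab.le)
        (fun h => hT.disj _ _ _ hab h)
      omega
    · by_cases haj : a = j
      · subst haj
        have hbi : b ≠ i := by rintro rfl; omega
        have hbj : b ≠ a := by rintro rfl; omega
        rw [ej, eo b hbi hbj]
        exact lt_trans hcab hlt
      · by_cases hbi : b = i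
        · subst hbi
          rw [ei, eo a hai haj]
          exact lt_trans hlt hcab
        · by_cases hbj : b = j
          · subst hbj
            rw [ej, eo a hai haj]
            by_contra hc
            have hc' : ρ a < ρ i := lt_of_le_of_ne (not_lt.mp hc) (fun h => hai (ρ.injective h))
            have hc'' : (ρ a : ℕ) < ρ i := hc'
            have hai' : (a : ℕ) ≠ i := fun h => hai (Fin.ext h)
            have := hmin' i a (Fin.lt_def.mpr (by omega)) hc'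
              (hreg.mono (Fin.le_def.mpr (by omega)) le_rfl)
              (fun h => hT.disj _ _ _ h hab)
            omega
          · rw [eo a hai haj, eo b hbi hbj]
            exact hcab
  have h1 := hmax _ hmem
  have h2 := stat_swap_gt ρ hij hlt
  linarith

lemma exists_A {π : Equiv.Perm (Fin n)} {T : Fin n → Fin n → Prop} (hT : Valid Q π T) :
    ∃ ρ, Rel Q 1 π ρ ∧ (∀ i j, T i j → ρ i < ρ j) ∧
      ∀ i j : Fin n, i < j → ρ i < ρ j → Reg Q 1 ρ j (ρ j) → T i j := by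
  have hne : {ρ | Rel Q 1 π ρ ∧ ∀ i j, T i j → ρ i < ρ j}.Nonempty := by
    obtain ⟨ρ, h1, h2⟩ := exists_avoid21 (Q := Q) le_rfl π
    refine ⟨ρ, h1, fun i j hij => ?_⟩
    have hadj := hT.adj i j hij
    have hlt : i < j := Fin.lt_def.mpr (by omega)
    rcases lt_trichotomy (ρ i) (ρ j) with h | h | h
    · exact h
    · exact absurd (ρ.injective h) hlt.ne
    · exact absurd (corner_of_adjacent hadj h (h1.reg_self (hT.left i j hij))) (h2 i j hlt h)
  obtain ⟨ρ, ⟨hρ, hTρ⟩, hmax⟩ := Set.exists_min_image _ stat (Set.toFinite _) hne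
  refine ⟨ρ, hρ, hTρ, ?_⟩
  by_contra hcon
  have hbad : {p : Fin n × Fin n | p.1 < p.2 ∧ ρ p.1 < ρ p.2 ∧ Reg Q 1 ρ p.2 (ρ p.2) ∧
      ¬ T p.1 p.2}.Nonempty := by
    push Not at hcon
    obtain ⟨i, j, h1, h2, h3, h4⟩ := hcon
    exact ⟨(i, j), h1, h2, h3, h4⟩
  obtain ⟨⟨i, j⟩, ⟨hij, hlt, hreg, hnT⟩, hmin⟩ :=
    Set.exists_min_image _ (fun p : Fin n × Fin n => (ρ p.2 : ℕ) - (ρ p.1 : ℕ))
      (Set.toFinite _) hbad
  simp only at hij hlt hreg hnT hmin
  have hmin' : ∀ a b : Fin n, a < b → ρ a < ρ b → Reg Q 1 ρ b (ρ b) → ¬ T a b →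
      (ρ j : ℕ) - (ρ i : ℕ) ≤ (ρ b : ℕ) - (ρ a : ℕ) := fun a b h1 h2 h3 h4 =>
    hmin (a, b) ⟨h1, h2, h3, h4⟩
  have ei : (ρ * Equiv.swap i j) i = ρ j := by simp
  have ej : (ρ * Equiv.swap i j) j = ρ i := by simp
  have eo : ∀ p, p ≠ i → p ≠ j → (ρ * Equiv.swap i j) p = ρ p := by
    intro p hpi hpj
    simp [Equiv.swap_apply_of_ne_of_ne hpi hpj]
  have hrel : Rel Q 1 π (ρ * Equiv.swap i j) :=
    hρ.trans (rel_swap le_rfl hij (hreg.mono le_rfl hlt.le) hreg)
  have hmem : (ρ * Equiv.swap i j) ∈ {ρ | Rel Q 1 π ρ ∧ ∀ i j, T i j → ρ i < ρ j} := by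
    refine ⟨hrel, fun a b hab => ?_⟩
    have hadj := hT.adj a b hab
    have hcab := hTρ a b hab
    have hij' : (i : ℕ) < j := hij
    have hlt' : (ρ i : ℕ) < ρ j := hlt
    have hcab' : (ρ a : ℕ) < ρ b := hcab
    by_cases hai : a = i
    · subst hai
      have hbj : b ≠ j := by rintro rfl; exact hnT hab
      have hbi : b ≠ a := by rintro rfl; omega
      rw [ei, eo b hbi hbj]
      by_contra hc
      have hc' : ρ b < ρ j := lt_of_le_of_ne (not_lt.mp hc) (fun h => hbj (ρ.injective h))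
      have hc'' : (ρ b : ℕ) < ρ j := hc'
      have hbj' : (b : ℕ) ≠ j := fun h => hbj (Fin.ext h)
      have := hmin' b j (Fin.lt_def.mpr (by omega)) hc' hreg
        (fun h => hT.disj _ _ _ hab h)
      omega
    · by_cases haj : a = j
      · subst haj
        have hbi : b ≠ i := by rintro rfl; omega
        have hbj : b ≠ a := by rintro rfl; omega
        rw [ej, eo b hbi hbj]
        exact lt_trans hlt hcab
      · by_cases hbi : b = i
        · subst hbi
          rw [ei, eo a hai haj]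
          exact lt_trans hcab hlt
        · by_cases hbj : b = j
          · subst hbj
            rw [ej, eo a hai haj]
            by_contra hc
            have hc' : ρ i < ρ a := lt_of_le_of_ne (not_lt.mp hc)
              (fun h => hai (ρ.injective h).symm)
            have hc'' : (ρ i : ℕ) < ρ a := hc'
            have hai' : (a : ℕ) ≠ i := fun h => hai (Fin.ext h)
            have := hmin' i a (Fin.lt_def.mpr (by omega)) hc'
              (hreg.mono (Fin.le_def.mpr (by omega)) hcab.le)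
              (fun h => hT.disj _ _ _ h hab)
            omega
          · rw [eo a hai haj, eo b hbi hbj]
            exact hcab
  have h1 := hmax _ hmem
  have h2 := stat_swap_lt ρ hij hlt
  linarith

/-- avoiding `1 □ 2 ⊕ Q` -/
def PA (Q : Fin n → Fin n → Fin n → Fin n → Prop) (ρ : Equiv.Perm (Fin n)) : Prop :=
  ∀ i j : Fin n, (i : ℕ) + 2 ≤ j → ρ i < ρ j → ¬ Reg Q 1 ρ j (ρ j)

/-- avoiding `2 □ 1 ⊕ Q` -/
def PB (Q : Fin n → Fin n → Fin n → Fin n → Prop) (ρ : Equiv.Perm (Fin n)) : Prop :=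
  ∀ i j : Fin n, (i : ℕ) + 2 ≤ j → ρ j < ρ i → ¬ Reg Q 1 ρ j (ρ i)

/-- the adjacent occurrences of `12` -/
def TA (Q : Fin n → Fin n → Fin n → Fin n → Prop) (ρ : Equiv.Perm (Fin n)) (i j : Fin n) : Prop :=
  (i : ℕ) + 1 = j ∧ ρ i < ρ j ∧ Reg Q 1 ρ j (ρ j)

/-- the adjacent occurrences of `21` -/
def TB (Q : Fin n → Fin n → Fin n → Fin n → Prop) (ρ : Equiv.Perm (Fin n)) (i j : Fin n) : Prop :=
  (i : ℕ) + 1 = j ∧ ρ j < ρ i ∧ Reg Q 1 ρ j (ρ i)

lemma valid_TA {π : Equiv.Perm (Fin n)} (h : PA Q π) : Valid Q π (TA Q π) where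
  adj := fun _ _ h => h.1
  left := fun i j h => h.2.2.mono (Fin.le_def.mpr (by have := h.1; omega)) h.2.1.le
  right := fun _ _ h => h.2.2
  disj := fun i j k h1 h2 => h i k (by have := h1.1; have := h2.1; omega)
    (lt_trans h1.2.1 h2.2.1) h2.2.2

lemma valid_TB {π : Equiv.Perm (Fin n)} (h : PB Q π) : Valid Q π (TB Q π) where
  adj := fun _ _ h => h.1
  left := fun i j h => h.2.2.mono (Fin.le_def.mpr (by have := h.1; omega)) le_rfl
  right := fun _ _ h => h.2.2.mono le_rfl h.2.1.le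
  disj := fun i j k h1 h2 => h i k (by have := h1.1; have := h2.1; omega)
    (lt_trans h2.2.1 h1.2.1) (corner_step h2.1 (lt_trans h2.2.1 h1.2.1) h1.2.2)

/-- same class and same set of adjacent pairs -/
lemma exists_B_of_PA {π : Equiv.Perm (Fin n)} (h : PA Q π) :
    ∃ ρ, PB Q ρ ∧ (Rel Q 1 π ρ ∧ ∀ i j, TA Q π i j ↔ TB Q ρ i j) := by
  have hv := valid_TA h
  obtain ⟨ρ, h1, h2, h3⟩ := exists_B hv
  refine ⟨ρ, ?_, h1, ?_⟩
  · intro i j hij hlt hreg
    have := (h3 i j (Fin.lt_def.mpr (by omega)) hlt hreg).1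
    omega
  · intro i j
    constructor
    · intro hT
      exact ⟨hT.1, h2 i j hT, corner_of_adjacent hT.1 (h2 i j hT)
        (h1.reg_self (hv.left i j hT))⟩
    · intro hT
      exact h3 i j (Fin.lt_def.mpr (by have := hT.1; omega)) hT.2.1 hT.2.2

lemma exists_A_of_PB {π : Equiv.Perm (Fin n)} (h : PB Q π) :
    ∃ ρ, PA Q ρ ∧ (Rel Q 1 π ρ ∧ ∀ i j, TB Q π i j ↔ TA Q ρ i j) := by
  have hv := valid_TB h
  obtain ⟨ρ, h1, h2, h3⟩ := exists_A hv
  refine ⟨ρ, ?_, h1, ?_⟩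
  · intro i j hij hlt hreg
    have := (h3 i j (Fin.lt_def.mpr (by omega)) hlt hreg).1
    omega
  · intro i j
    constructor
    · intro hT
      exact ⟨hT.1, h2 i j hT, h1.reg_self (hv.right i j hT)⟩
    · intro hT
      exact h3 i j (Fin.lt_def.mpr (by have := hT.1; omega)) hT.2.1 hT.2.2

lemma uniqueA_aux {π ρ : Equiv.Perm (Fin n)} (h : Rel Q 1 π ρ) (hρ : PA Q ρ)
    (hT : ∀ i j, TA Q π i j ↔ TA Q ρ i j)
    {j : Fin n} (hj : π j < ρ j) (hagree : ∀ k, j < k → π k = ρ k) : False := by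
  have hreg : Reg Q 1 ρ j (ρ j) := by
    by_contra hc
    exact hj.ne (h.2 j (Or.inr hc))
  obtain ⟨i, hi⟩ := ρ.surjective (π j)
  have hij : i < j := by
    rcases lt_trichotomy i j with h1 | h1 | h1
    · exact h1
    · subst h1; exact absurd hi.symm hj.ne
    · have := hagree i h1
      rw [hi] at this
      exact absurd (π.injective this) h1.ne'
  have hij' : (i : ℕ) < j := hij
  have hlt : ρ i < ρ j := by rw [hi]; exact hj
  have hadj : (i : ℕ) + 1 = j := by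
    by_contra hc
    exact hρ i j (by omega) hlt hreg
  have hTA : TA Q π i j := (hT i j).mpr ⟨hadj, hlt, hreg⟩
  -- now look at the value `π i`
  obtain ⟨k, hk⟩ := ρ.surjective (π i)
  have hk1 : ρ k < ρ i := by rw [hk, hi]; exact hTA.2.1
  have hki : k < i := by
    rcases lt_trichotomy k i with h1 | h1 | h1
    · exact h1
    · subst h1; exact absurd hk1 (lt_irrefl _)
    · have h1' : (i : ℕ) < k := h1
      have hkj : k ≠ j := by
        rintro rfl
        exact absurd (lt_trans hk1 hlt) (lt_irrefl _)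
      have hkj' : (k : ℕ) ≠ j := fun h => hkj (Fin.ext h)
      have := hagree k (Fin.lt_def.mpr (by omega))
      rw [hk] at this
      exact absurd (π.injective this) h1.ne'
  have hki' : (k : ℕ) < i := hki
  exact hρ k j (by omega) (lt_trans hk1 hlt) hreg

lemma uniqueA {π ρ : Equiv.Perm (Fin n)} (h : Rel Q 1 π ρ) (hπ : PA Q π) (hρ : PA Q ρ)
    (hT : ∀ i j, TA Q π i j ↔ TA Q ρ i j) : π = ρ := by
  by_contra hne
  obtain ⟨j, hj, hagree⟩ := exists_last_ne hne
  rcases lt_or_gt_of_ne hj with h1 | h1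
  · exact uniqueA_aux h hρ hT h1 hagree
  · exact uniqueA_aux h.symm hπ (fun i j => (hT i j).symm) h1 (fun k hk => (hagree k hk).symm)

lemma uniqueB_aux {π ρ : Equiv.Perm (Fin n)} (h : Rel Q 1 π ρ) (hπ : PB Q π)
    (hT : ∀ i j, TB Q π i j ↔ TB Q ρ i j)
    {j : Fin n} (hj : π j < ρ j) (hagree : ∀ k, j < k → π k = ρ k) : False := by
  have hreg : Reg Q 1 π j (ρ j) := by
    rw [h.1]
    by_contra hc
    exact hj.ne (h.2 j (Or.inr hc))
  obtain ⟨i, hi⟩ := π.surjective (ρ j)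
  have hij : i < j := by
    rcases lt_trichotomy i j with h1 | h1 | h1
    · exact h1
    · subst h1; exact absurd hi hj.ne
    · have := hagree i h1
      rw [hi] at this
      exact absurd (ρ.injective this) h1.ne
  have hij' : (i : ℕ) < j := hij
  have hlt : π j < π i := by rw [hi]; exact hj
  have hadj : (i : ℕ) + 1 = j := by
    by_contra hc
    exact hπ i j (by omega) hlt (by rw [hi]; exact hreg)
  have hTB : TB Q ρ i j := (hT i j).mp ⟨hadj, hlt, by rw [hi]; exact hreg⟩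
  obtain ⟨k, hk⟩ := π.surjective (ρ i)
  have hk1 : π i < π k := by rw [hk, hi]; exact hTB.2.1
  have hki : k < i := by
    rcases lt_trichotomy k i with h1 | h1 | h1
    · exact h1
    · subst h1; exact absurd hk1 (lt_irrefl _)
    · have h1' : (i : ℕ) < k := h1
      have hkj : k ≠ j := by
        rintro rfl
        exact absurd (lt_trans hlt hk1) (lt_irrefl _)
      have hkj' : (k : ℕ) ≠ j := fun h => hkj (Fin.ext h)
      have := hagree k (Fin.lt_def.mpr (by omega))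
      rw [hk] at this
      exact absurd (ρ.injective this) h1.ne
  have hki' : (k : ℕ) < i := hki
  refine hπ k j (by omega) (lt_trans hlt hk1) ?_
  rw [hk, h.1]
  exact hTB.2.2

lemma uniqueB {π ρ : Equiv.Perm (Fin n)} (h : Rel Q 1 π ρ) (hπ : PB Q π) (hρ : PB Q ρ)
    (hT : ∀ i j, TB Q π i j ↔ TB Q ρ i j) : π = ρ := by
  by_contra hne
  obtain ⟨j, hj, hagree⟩ := exists_last_ne hne
  rcases lt_or_gt_of_ne hj with h1 | h1
  · exact uniqueB_aux h hπ hT h1 hagree
  · exact uniqueB_aux h.symm hρ (fun i j => (hT i j).symm) h1 (fun k hk => (hagree k hk).symm)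

/-- Exchange of `1 □ 2` and `2 □ 1` at the lower left of an arbitrary structure. -/
theorem card_gap_exchange :
    Nat.card {π : Equiv.Perm (Fin n) // PA Q π} = Nat.card {π : Equiv.Perm (Fin n) // PB Q π} := by
  apply le_antisymm
  · refine card_le_of_rel (R := fun π ρ => Rel Q 1 π ρ ∧ ∀ i j, TA Q π i j ↔ TB Q ρ i j)
      (fun a ha => exists_B_of_PA ha) (fun a a' b ha ha' h1 h2 => ?_)
    exact uniqueA (h1.1.trans h2.1.symm) ha ha' (fun i j => (h1.2 i j).trans (h2.2 i j).symm)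
  · refine card_le_of_rel (R := fun π ρ => Rel Q 1 π ρ ∧ ∀ i j, TB Q π i j ↔ TA Q ρ i j)
      (fun a ha => exists_A_of_PB ha) (fun a a' b ha ha' h1 h2 => ?_)
    exact uniqueB (h1.1.trans h2.1.symm) ha ha' (fun i j => (h1.2 i j).trans (h2.2 i j).symm)

end Region

section Patterns

variable {n : ℕ}

lemma contains_iff (q : Fin 4 → ℕ) (j : Fin 3) (π : Equiv.Perm (Fin n)) :
    Contains q j π ↔ ∃ a b c d : Fin n, a < b ∧ b < c ∧ c < d ∧
      (∀ s t : Fin 4, (![π a, π b, π c, π d] s < ![π a, π b, π c, π d] t ↔ q s < q t)) ∧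
      ((![a, b, c, d] j.castSucc : Fin n) : ℕ) + 2 ≤ ((![a, b, c, d] j.succ : Fin n) : ℕ) := by
  constructor
  · rintro ⟨i, hi, h, hg⟩
    refine ⟨i 0, i 1, i 2, i 3, hi (by decide), hi (by decide), hi (by decide), ?_, ?_⟩
    · have e : (![π (i 0), π (i 1), π (i 2), π (i 3)] : Fin 4 → Fin n) = fun s => π (i s) := by
        ext s; fin_cases s <;> rfl
      intro s t
      rw [e]
      exact h s t
    · have e : (![i 0, i 1, i 2, i 3] : Fin 4 → Fin n) = i := by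
        ext s; fin_cases s <;> rfl
      rw [e]
      exact hg
  · rintro ⟨a, b, c, d, hab, hbc, hcd, h, hg⟩
    refine ⟨![a, b, c, d], ?_, ?_, hg⟩
    · rw [Fin.strictMono_iff_lt_succ]
      intro k
      fin_cases k
      · exact hab
      · exact hbc
      · exact hcd
    · intro s t
      rw [← h s t]
      have e : (![π a, π b, π c, π d] : Fin 4 → Fin n) = fun s => π (![a, b, c, d] s) := by
        ext s; fin_cases s <;> rfl
      rw [e]

lemma ord1234 (A B C D : Fin n) :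
    (∀ s t : Fin 4, (![A, B, C, D] s < ![A, B, C, D] t ↔ (![1, 2, 3, 4] : Fin 4 → ℕ) s <
      (![1, 2, 3, 4] : Fin 4 → ℕ) t)) ↔ A < B ∧ B < C ∧ C < D := by
  constructor
  · intro h
    exact ⟨(h 0 1).mpr (by decide), (h 1 2).mpr (by decide), (h 2 3).mpr (by decide)⟩
  · rintro ⟨h1, h2, h3⟩ s t
    simp only [Fin.lt_def] at *
    fin_cases s <;> fin_cases t <;> simp <;> omega

lemma ord1243 (A B C D : Fin n) :
    (∀ s t : Fin 4, (![A, B, C, D] s < ![A, B, C, D] t ↔ (![1, 2, 4, 3] : Fin 4 → ℕ) s <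
      (![1, 2, 4, 3] : Fin 4 → ℕ) t)) ↔ A < B ∧ B < D ∧ D < C := by
  constructor
  · intro h
    exact ⟨(h 0 1).mpr (by decide), (h 1 3).mpr (by decide), (h 3 2).mpr (by decide)⟩
  · rintro ⟨h1, h2, h3⟩ s t
    simp only [Fin.lt_def] at *
    fin_cases s <;> fin_cases t <;> simp <;> omega

lemma ord2134 (A B C D : Fin n) :
    (∀ s t : Fin 4, (![A, B, C, D] s < ![A, B, C, D] t ↔ (![2, 1, 3, 4] : Fin 4 → ℕ) s <
      (![2, 1, 3, 4] : Fin 4 → ℕ) t)) ↔ B < A ∧ A < C ∧ C < D := by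
  constructor
  · intro h
    exact ⟨(h 1 0).mpr (by decide), (h 0 2).mpr (by decide), (h 2 3).mpr (by decide)⟩
  · rintro ⟨h1, h2, h3⟩ s t
    simp only [Fin.lt_def] at *
    fin_cases s <;> fin_cases t <;> simp <;> omega

lemma ord2143 (A B C D : Fin n) :
    (∀ s t : Fin 4, (![A, B, C, D] s < ![A, B, C, D] t ↔ (![2, 1, 4, 3] : Fin 4 → ℕ) s <
      (![2, 1, 4, 3] : Fin 4 → ℕ) t)) ↔ B < A ∧ A < D ∧ D < C := by
  constructor
  · intro h
    exact ⟨(h 1 0).mpr (by decide), (h 0 3).mpr (by decide), (h 3 2).mpr (by decide)⟩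
  · rintro ⟨h1, h2, h3⟩ s t
    simp only [Fin.lt_def] at *
    fin_cases s <;> fin_cases t <;> simp <;> omega

/-- increasing pair at distance at least `h` -/
def QI (h : ℕ) (x y a b : Fin n) : Prop := (x : ℕ) + h ≤ y ∧ a < b

/-- decreasing pair at distance at least `h` -/
def QD (h : ℕ) (x y a b : Fin n) : Prop := (x : ℕ) + h ≤ y ∧ b < a

/-- reverse-complement of a permutation -/
def rc : Equiv.Perm (Fin n) ≃ Equiv.Perm (Fin n) where
  toFun π := Fin.revPerm * π * Fin.revPerm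
  invFun π := Fin.revPerm * π * Fin.revPerm
  left_inv π := by
    ext x; simp
  right_inv π := by
    ext x; simp

lemma rc_apply (π : Equiv.Perm (Fin n)) (x : Fin n) : rc π x = Fin.rev (π (Fin.rev x)) := rfl

lemma contains_rc_of {q q' : Fin 4 → ℕ} {j j' : Fin 3}
    (hq : ∀ a b : Fin 4, q' a < q' b ↔ q (Fin.rev b) < q (Fin.rev a))
    (hj : j'.castSucc = Fin.rev j.succ) (hj' : j'.succ = Fin.rev j.castSucc)
    {π : Equiv.Perm (Fin n)} (h : Contains q j π) : Contains q' j' (rc π) := by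
  obtain ⟨i, hi, h, hg⟩ := h
  refine ⟨fun a => Fin.rev (i (Fin.rev a)), ?_, ?_, ?_⟩
  · intro a b hab
    exact Fin.rev_lt_rev.mpr (hi (Fin.rev_lt_rev.mpr hab))
  · intro a b
    rw [rc_apply, rc_apply, Fin.rev_rev, Fin.rev_rev, Fin.rev_lt_rev, h, hq]
  · simp only
    rw [hj, hj', Fin.rev_rev, Fin.rev_rev, Fin.val_rev, Fin.val_rev]
    have := (i j.succ).2
    omega

lemma avoidCount_rc {q q' : Fin 4 → ℕ} {j j' : Fin 3}
    (hq : ∀ a b : Fin 4, q' a < q' b ↔ q (Fin.rev b) < q (Fin.rev a))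
    (hq' : ∀ a b : Fin 4, q a < q b ↔ q' (Fin.rev b) < q' (Fin.rev a))
    (hj : j'.castSucc = Fin.rev j.succ) (hj' : j'.succ = Fin.rev j.castSucc)
    (hj2 : j.castSucc = Fin.rev j'.succ) (hj2' : j.succ = Fin.rev j'.castSucc) (n : ℕ) :
    avoidCount q j n = avoidCount q' j' n := by
  refine Nat.card_congr (Equiv.subtypeEquiv rc fun π => not_congr ⟨contains_rc_of hq hj hj', ?_⟩)
  intro h
  have h2 := contains_rc_of hq' hj2 hj2' h
  have e : rc (rc π) = π := rc.left_inv π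
  rwa [e] at h2

/-- Counting principle: two predicates which agree give the same count. -/
lemma avoidCount_eq {q : Fin 4 → ℕ} {j : Fin 3} {P : Equiv.Perm (Fin n) → Prop}
    (h : ∀ π, ¬ Contains q j π ↔ P π) : avoidCount q j n = Nat.card {π // P π} :=
  Nat.card_congr (Equiv.subtypeEquivRight h)

lemma not_contains_12 {q : Fin 4 → ℕ} {j : Fin 3} {g h : ℕ} {R : Fin n → Fin n → Prop}
    (hq : ∀ π : Equiv.Perm (Fin n), Contains q j π ↔ ∃ a b c d : Fin n, a < b ∧ c < d ∧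
      (b : ℕ) + g ≤ c ∧ (c : ℕ) + h ≤ d ∧ π a < π b ∧ π b < π c ∧ π b < π d ∧ R (π c) (π d))
    (π : Equiv.Perm (Fin n)) :
    ¬ Contains q j π ↔ ∀ i j : Fin n, i < j → π i < π j →
      ¬ Reg (fun x y a b => (x : ℕ) + h ≤ y ∧ R a b) g π j (π j) := by
  rw [hq]
  constructor
  · intro hno i j hij hlt ⟨x, y, hxy, ⟨hQ1, hQ2⟩, hpx, h1, h2⟩
    exact hno ⟨i, j, x, y, hij, hxy, hpx, hQ1, hlt, h1, h2, hQ2⟩
  · rintro hno ⟨a, b, c, d, hab, hcd, hbc, hh, h1, h2, h3, h4⟩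
    exact hno a b hab h1 ⟨c, d, hcd, ⟨hh, h4⟩, hbc, h2, h3⟩

lemma not_contains_21 {q : Fin 4 → ℕ} {j : Fin 3} {g h : ℕ} {R : Fin n → Fin n → Prop}
    (hq : ∀ π : Equiv.Perm (Fin n), Contains q j π ↔ ∃ a b c d : Fin n, a < b ∧ c < d ∧
      (b : ℕ) + g ≤ c ∧ (c : ℕ) + h ≤ d ∧ π b < π a ∧ π a < π c ∧ π a < π d ∧ R (π c) (π d))
    (π : Equiv.Perm (Fin n)) :
    ¬ Contains q j π ↔ ∀ i j : Fin n, i < j → π j < π i →
      ¬ Reg (fun x y a b => (x : ℕ) + h ≤ y ∧ R a b) g π j (π i) := by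
  rw [hq]
  constructor
  · intro hno i j hij hlt ⟨x, y, hxy, ⟨hQ1, hQ2⟩, hpx, h1, h2⟩
    exact hno ⟨i, j, x, y, hij, hxy, hpx, hQ1, hlt, h1, h2, hQ2⟩
  · rintro hno ⟨a, b, c, d, hab, hcd, hbc, hh, h1, h2, h3, h4⟩
    exact hno a b hab h1 ⟨c, d, hcd, ⟨hh, h4⟩, hbc, h2, h3⟩

/-- `123□4 ~ 213□4` -/
lemma e_1234_2134_2 (n : ℕ) : avoidCount ![1, 2, 3, 4] 2 n = avoidCount ![2, 1, 3, 4] 2 n := by
  rw [avoidCount_eq (not_contains_12 (g := 1) (h := 2) (R := fun a b => a < b) ?_),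
    avoidCount_eq (not_contains_21 (g := 1) (h := 2) (R := fun a b => a < b) ?_)]
  · exact card_exchange le_rfl
  · intro π
    rw [contains_iff]
    constructor
    · rintro ⟨a, b, c, d, h1, h2, h3, h4, h5⟩
      rw [ord2134] at h4
      exact ⟨a, b, c, d, h1, h3, h2, h5, h4.1, h4.2.1, h4.2.1.trans h4.2.2, h4.2.2⟩
    · rintro ⟨a, b, c, d, h1, h3, h2, h5, h6, h7, h8, h9⟩
      exact ⟨a, b, c, d, h1, h2, h3, (ord2134 _ _ _ _).mpr ⟨h6, h7, h9⟩, h5⟩
  · intro π
    rw [contains_iff]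
    constructor
    · rintro ⟨a, b, c, d, h1, h2, h3, h4, h5⟩
      rw [ord1234] at h4
      exact ⟨a, b, c, d, h1, h3, h2, h5, h4.1, h4.2.1, h4.2.1.trans h4.2.2, h4.2.2⟩
    · rintro ⟨a, b, c, d, h1, h3, h2, h5, h6, h7, h8, h9⟩
      exact ⟨a, b, c, d, h1, h2, h3, (ord1234 _ _ _ _).mpr ⟨h6, h7, h9⟩, h5⟩

/-- `124□3 ~ 214□3` -/
lemma e_1243_2143_2 (n : ℕ) : avoidCount ![1, 2, 4, 3] 2 n = avoidCount ![2, 1, 4, 3] 2 n := by
  rw [avoidCount_eq (not_contains_12 (g := 1) (h := 2) (R := fun a b => b < a) ?_),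
    avoidCount_eq (not_contains_21 (g := 1) (h := 2) (R := fun a b => b < a) ?_)]
  · exact card_exchange le_rfl
  · intro π
    rw [contains_iff]
    constructor
    · rintro ⟨a, b, c, d, h1, h2, h3, h4, h5⟩
      rw [ord2143] at h4
      exact ⟨a, b, c, d, h1, h3, h2, h5, h4.1, h4.2.1.trans h4.2.2, h4.2.1, h4.2.2⟩
    · rintro ⟨a, b, c, d, h1, h3, h2, h5, h6, h7, h8, h9⟩
      exact ⟨a, b, c, d, h1, h2, h3, (ord2143 _ _ _ _).mpr ⟨h6, h8, h9⟩, h5⟩
  · intro π
    rw [contains_iff]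
    constructor
    · rintro ⟨a, b, c, d, h1, h2, h3, h4, h5⟩
      rw [ord1243] at h4
      exact ⟨a, b, c, d, h1, h3, h2, h5, h4.1, h4.2.1.trans h4.2.2, h4.2.1, h4.2.2⟩
    · rintro ⟨a, b, c, d, h1, h3, h2, h5, h6, h7, h8, h9⟩
      exact ⟨a, b, c, d, h1, h2, h3, (ord1243 _ _ _ _).mpr ⟨h6, h8, h9⟩, h5⟩

/-- `12□34 ~ 21□34` -/
lemma e_1234_2134_1 (n : ℕ) : avoidCount ![1, 2, 3, 4] 1 n = avoidCount ![2, 1, 3, 4] 1 n := by
  rw [avoidCount_eq (not_contains_12 (g := 2) (h := 1) (R := fun a b => a < b) ?_),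
    avoidCount_eq (not_contains_21 (g := 2) (h := 1) (R := fun a b => a < b) ?_)]
  · exact card_exchange (by norm_num)
  · intro π
    rw [contains_iff]
    constructor
    · rintro ⟨a, b, c, d, h1, h2, h3, h4, h5⟩
      rw [ord2134] at h4
      exact ⟨a, b, c, d, h1, h3, h5, h3, h4.1, h4.2.1, h4.2.1.trans h4.2.2, h4.2.2⟩
    · rintro ⟨a, b, c, d, h1, h3, h2, h5, h6, h7, h8, h9⟩
      exact ⟨a, b, c, d, h1, Fin.lt_def.mpr (by omega), h3,
        (ord2134 _ _ _ _).mpr ⟨h6, h7, h9⟩, h2⟩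
  · intro π
    rw [contains_iff]
    constructor
    · rintro ⟨a, b, c, d, h1, h2, h3, h4, h5⟩
      rw [ord1234] at h4
      exact ⟨a, b, c, d, h1, h3, h5, h3, h4.1, h4.2.1, h4.2.1.trans h4.2.2, h4.2.2⟩
    · rintro ⟨a, b, c, d, h1, h3, h2, h5, h6, h7, h8, h9⟩
      exact ⟨a, b, c, d, h1, Fin.lt_def.mpr (by omega), h3,
        (ord1234 _ _ _ _).mpr ⟨h6, h7, h9⟩, h2⟩

/-- `12□43 ~ 21□43` -/
lemma e_1243_2143_1 (n : ℕ) : avoidCount ![1, 2, 4, 3] 1 n = avoidCount ![2, 1, 4, 3] 1 n := by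
  rw [avoidCount_eq (not_contains_12 (g := 2) (h := 1) (R := fun a b => b < a) ?_),
    avoidCount_eq (not_contains_21 (g := 2) (h := 1) (R := fun a b => b < a) ?_)]
  · exact card_exchange (by norm_num)
  · intro π
    rw [contains_iff]
    constructor
    · rintro ⟨a, b, c, d, h1, h2, h3, h4, h5⟩
      rw [ord2143] at h4
      exact ⟨a, b, c, d, h1, h3, h5, h3, h4.1, h4.2.1.trans h4.2.2, h4.2.1, h4.2.2⟩
    · rintro ⟨a, b, c, d, h1, h3, h2, h5, h6, h7, h8, h9⟩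
      exact ⟨a, b, c, d, h1, Fin.lt_def.mpr (by omega), h3,
        (ord2143 _ _ _ _).mpr ⟨h6, h8, h9⟩, h2⟩
  · intro π
    rw [contains_iff]
    constructor
    · rintro ⟨a, b, c, d, h1, h2, h3, h4, h5⟩
      rw [ord1243] at h4
      exact ⟨a, b, c, d, h1, h3, h5, h3, h4.1, h4.2.1.trans h4.2.2, h4.2.1, h4.2.2⟩
    · rintro ⟨a, b, c, d, h1, h3, h2, h5, h6, h7, h8, h9⟩
      exact ⟨a, b, c, d, h1, Fin.lt_def.mpr (by omega), h3,
        (ord1243 _ _ _ _).mpr ⟨h6, h8, h9⟩, h2⟩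

/-- `1□234 ~ 2□134` -/
lemma e_1234_2134_0 (n : ℕ) : avoidCount ![1, 2, 3, 4] 0 n = avoidCount ![2, 1, 3, 4] 0 n := by
  rw [avoidCount_eq (P := PA (fun _ _ a b => a < b)) ?_,
    avoidCount_eq (P := PB (fun _ _ a b => a < b)) ?_]
  · exact card_gap_exchange
  · intro π
    rw [contains_iff]
    constructor
    · intro hno i j hij hlt ⟨x, y, hxy, hQ, hpx, h1, h2⟩
      exact hno ⟨i, j, x, y, Fin.lt_def.mpr (by omega), Fin.lt_def.mpr (by omega), hxy,
        (ord2134 _ _ _ _).mpr ⟨hlt, h1, hQ⟩, hij⟩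
    · rintro hno ⟨a, b, c, d, h1, h2, h3, h4, h5⟩
      rw [ord2134] at h4
      exact hno a b h5 h4.1 ⟨c, d, h3, h4.2.2, h2, h4.2.1, h4.2.1.trans h4.2.2⟩
  · intro π
    rw [contains_iff]
    constructor
    · intro hno i j hij hlt ⟨x, y, hxy, hQ, hpx, h1, h2⟩
      exact hno ⟨i, j, x, y, Fin.lt_def.mpr (by omega), Fin.lt_def.mpr (by omega), hxy,
        (ord1234 _ _ _ _).mpr ⟨hlt, h1, hQ⟩, hij⟩
    · rintro hno ⟨a, b, c, d, h1, h2, h3, h4, h5⟩
      rw [ord1234] at h4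
      exact hno a b h5 h4.1 ⟨c, d, h3, h4.2.2, h2, h4.2.1, h4.2.1.trans h4.2.2⟩

lemma rc_1234_02 (n : ℕ) : avoidCount ![1, 2, 3, 4] 0 n = avoidCount ![1, 2, 3, 4] 2 n :=
  avoidCount_rc (by decide) (by decide) (by decide) (by decide) (by decide) (by decide) n

lemma rc_1243_02 (n : ℕ) : avoidCount ![1, 2, 4, 3] 0 n = avoidCount ![2, 1, 3, 4] 2 n :=
  avoidCount_rc (by decide) (by decide) (by decide) (by decide) (by decide) (by decide) n

lemma rc_2143_02 (n : ℕ) : avoidCount ![2, 1, 4, 3] 0 n = avoidCount ![2, 1, 4, 3] 2 n :=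
  avoidCount_rc (by decide) (by decide) (by decide) (by decide) (by decide) (by decide) n

lemma rc_2134_02 (n : ℕ) : avoidCount ![2, 1, 3, 4] 0 n = avoidCount ![1, 2, 4, 3] 2 n :=
  avoidCount_rc (by decide) (by decide) (by decide) (by decide) (by decide) (by decide) n

lemma rc_1243_11 (n : ℕ) : avoidCount ![1, 2, 4, 3] 1 n = avoidCount ![2, 1, 3, 4] 1 n :=
  avoidCount_rc (by decide) (by decide) (by decide) (by decide) (by decide) (by decide) n

end Patterns

/-- **Q1 of MP_1ac54c_co, in full**: for every `j`, inserting one square after the `j`-th letter of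
each of `1234`, `1243`, `2143` produces three pairwise Wilf-equivalent distant patterns. (The index
`j : Fin 3` is zero-based, so `j = 0, 1, 2` is the square after the first, second, third letter.) -/
theorem result : ∀ (j : Fin 3) (n : ℕ),
    avoidCount ![1, 2, 3, 4] j n = avoidCount ![1, 2, 4, 3] j n ∧
    avoidCount ![1, 2, 4, 3] j n = avoidCount ![2, 1, 4, 3] j n := by
  intro j n
  fin_cases j
  · constructor
    · show avoidCount ![1, 2, 3, 4] 0 n = avoidCount ![1, 2, 4, 3] 0 n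
      rw [rc_1243_02, ← e_1234_2134_2, rc_1234_02]
    · show avoidCount ![1, 2, 4, 3] 0 n = avoidCount ![2, 1, 4, 3] 0 n
      rw [rc_1243_02, ← e_1234_2134_2, ← rc_1234_02, e_1234_2134_0, rc_2134_02, e_1243_2143_2,
        ← rc_2143_02]
  · constructor
    · show avoidCount ![1, 2, 3, 4] 1 n = avoidCount ![1, 2, 4, 3] 1 n
      rw [rc_1243_11, e_1234_2134_1]
    · show avoidCount ![1, 2, 4, 3] 1 n = avoidCount ![2, 1, 4, 3] 1 n
      rw [e_1243_2143_1]
  · constructor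
    · show avoidCount ![1, 2, 3, 4] 2 n = avoidCount ![1, 2, 4, 3] 2 n
      rw [← rc_2134_02, ← e_1234_2134_0, rc_1234_02]
    · show avoidCount ![1, 2, 4, 3] 2 n = avoidCount ![2, 1, 4, 3] 2 n
      rw [e_1243_2143_2]

end Pool.Agent.Results.MP_1ac54c_co.GappedWilf
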